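import Pool.Agent.H641R2.GD.InNP
import Pool.Agent.H622R2.CoNP

/-!
# Global domination for two Hamiltonian paths is NP-complete

Instances consist of a number `n ≥ 1` of vertices, two edge-disjoint Hamiltonian paths on the vertex
set `{0, ..., n-1}`, each given as the sequence of its vertices, and a number `M`; the question is
whether some set of at most `M` vertices dominates both paths. The problem is `NP`-complete.
-/

namespace Pool.Agent.Results.MP_833c47_lc.TwoPathsNPComplete

open Pool.Agent.NPC Pool.Agent.H641R2.GlobDom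

/-- An instance: the number `n` of vertices, the two paths, and the bound `M`. -/
abbrev Inst : Type := ℕ × (List ℕ × List ℕ) × ℕ

/-- The two lists are edge-disjoint Hamiltonian paths on `{0, ..., n-1}`, `n ≥ 1`. -/
def Valid (x : Inst) : Prop :=
  0 < x.1 ∧ x.2.1.1.Perm (List.range x.1) ∧ x.2.1.2.Perm (List.range x.1) ∧
    Disjoint (pathGraph x.2.1.1).edgeSet (pathGraph x.2.1.2).edgeSet

/-- The global domination number of the factoring into the two paths. -/
noncomputable def gamma (x : Inst) : ℕ := globalDominationNumber x.1 [x.2.1.1, x.2.1.2]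

/-- The decision problem: is the global domination number at most `M`? -/
def TwoPaths (x : Inst) : Prop := Valid x ∧ gamma x ≤ x.2.2

theorem gd_iff (x : Inst) : GD 2 (x.1, [x.2.1.1, x.2.1.2], x.2.2) ↔ TwoPaths x := by
  simp only [GD, TwoPaths, Valid, gamma, List.length_cons, List.length_nil, List.mem_cons,
    List.not_mem_nil, or_false, forall_eq_or_imp, forall_eq, List.pairwise_cons, List.Pairwise.nil,
    and_true, true_and, and_assoc]
  constructor
  · rintro ⟨a, b, c, d, -, e⟩
    exact ⟨a, b, c, d, e⟩
  · rintro ⟨a, b, c, d, e⟩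
    exact ⟨a, b, c, d, fun _ h => h.elim, e⟩

/-- The reduction from `GD 2`. -/
def red (x : ℕ × List (List ℕ) × ℕ) : Inst :=
  if x.2.1.length = 2 then (x.1, (x.2.1.getD 0 [], x.2.1.getD 1 []), x.2.2) else (0, ([], []), 0)

theorem poly_red : Poly red := by
  unfold red
  refine Poly.ite (Poly.decide_eq (Poly.length (Poly.fst (Poly.snd Poly.id))) (NPC.Poly.const 2)) ?_
    (NPC.Poly.const _)
  exact Poly.pair (Poly.fst Poly.id) (Poly.pair (Poly.pair
    (Poly.getD (Poly.fst (Poly.snd Poly.id)) (NPC.Poly.const 0) (NPC.Poly.const []))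
    (Poly.getD (Poly.fst (Poly.snd Poly.id)) (NPC.Poly.const 1) (NPC.Poly.const [])))
    (Poly.snd (Poly.snd Poly.id)))

theorem red_spec (x : ℕ × List (List ℕ) × ℕ) : GD 2 x ↔ TwoPaths (red x) := by
  obtain ⟨n, l, M⟩ := x
  by_cases h : l.length = 2
  · obtain ⟨a, b, rfl⟩ := List.length_eq_two.1 h
    rw [← gd_iff]
    simp [red]
  · constructor
    · intro hx
      exact absurd hx.2.1 h
    · intro hx
      simp only [red, h, if_false] at hx
      exact absurd hx.1.1 (lt_irrefl 0)

theorem hardI_two : HardI TwoPaths :=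
  HardI.trans (hardI_GD 2 le_rfl) poly_red (fun x => red_spec x)

theorem poly_emb : Poly (fun x : Inst => (x.1, [x.2.1.1, x.2.1.2], x.2.2)) :=
  Poly.pair (Poly.fst Poly.id) (Poly.pair
    (Poly.cons (Poly.fst (Poly.fst (Poly.snd Poly.id)))
      (Poly.cons (Poly.snd (Poly.fst (Poly.snd Poly.id))) (NPC.Poly.const [])))
    (Poly.snd (Poly.snd Poly.id)))

/-- **Global domination for two edge-disjoint Hamiltonian paths is `NP`-complete**: given two
edge-disjoint Hamiltonian paths on `{0, ..., n-1}` and a number `M`, it is `NP`-complete to decide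
whether the global domination number of the two paths is at most `M`. -/
theorem result : InNPP TwoPaths ∧ NPHardP TwoPaths :=
  ⟨Pool.Agent.H622R2.InNP.of_reduces (reduces_lang poly_emb fun x => (gd_iff x).symm) (inNPP_GD 2 (by norm_num)),
    hardI_two.toNPHardP⟩

end Pool.Agent.Results.MP_833c47_lc.TwoPathsNPComplete
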